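import Pool.Agent.Lib.MP_bd3808_ag.BS.Coh

/-!
# The `k`-linear structure on the sheaves of modules on a scheme over `k`
-/

set_option autoImplicit false

open CategoryTheory CategoryTheory.Limits AlgebraicGeometry TopologicalSpace

namespace BS

universe u

section Smul

variable {X : Scheme.{u}}

/-- the restriction of a global function to an open set -/
noncomputable def resTop (U : X.Opens) : Γ(X, ⊤) →+* Γ(X, U) :=
  (X.presheaf.map (homOfLE (le_top (a := U))).op).hom

lemma res_resTop (r : Γ(X, ⊤)) {U V : X.Opens} (i : V ⟶ U) :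
    (X.presheaf.map i.op).hom (resTop U r) = resTop V r := by
  unfold resTop
  rw [← RingHom.comp_apply, ← CommRingCat.hom_comp, ← Functor.map_comp]
  rfl

/-- multiplication by a global function is an endomorphism of a sheaf of modules -/
theorem exists_mulEnd (r : Γ(X, ⊤)) (M : X.Modules) :
    ∃ φ : M ⟶ M, ∀ (U : X.Opens) (x : Γ(M, U)), (φ.app U).hom x = resTop U r • x := by
  refine ⟨show SheafOfModules.Hom _ _ from
  ⟨{ app := fun U => ModuleCat.ofHom (R := X.ringCatSheaf.obj.obj U)
        (LinearMap.mk ⟨fun x => (show Γ(M, U.unop) from resTop U.unop r • (show Γ(M, U.unop) from x)),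
          fun x y => smul_add _ _ _⟩ (fun a x => by
            change resTop U.unop r • ((show Γ(X, U.unop) from a) • (show Γ(M, U.unop) from x)) =
              (show Γ(X, U.unop) from a) • (resTop U.unop r • (show Γ(M, U.unop) from x))
            rw [smul_smul, smul_smul, mul_comm]))
     naturality := by
      intro U V i
      ext x
      change resTop V.unop r • (M.presheaf.map i.unop.op) x =
        (M.presheaf.map i.unop.op) (resTop U.unop r • (show Γ(M, U.unop) from x))
      rw [Scheme.Modules.map_smul, res_resTop] }⟩, fun U x => rfl⟩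

/-- multiplication by a global function, as an endomorphism of a sheaf of modules -/
noncomputable def mulEnd (r : Γ(X, ⊤)) (M : X.Modules) : M ⟶ M := (exists_mulEnd r M).choose

lemma mulEnd_app (r : Γ(X, ⊤)) (M : X.Modules) (U : X.Opens) (x : Γ(M, U)) :
    (mulEnd r M).app U x = resTop U r • x := (exists_mulEnd r M).choose_spec U x

lemma mulEnd_comm (r : Γ(X, ⊤)) {M N : X.Modules} (φ : M ⟶ N) : φ ≫ mulEnd r N = mulEnd r M ≫ φ := by
  ext U x
  rw [Scheme.Modules.Hom.comp_app, Scheme.Modules.Hom.comp_app]
  change (mulEnd r N).app U (φ.app U x) = φ.app U ((mulEnd r M).app U x)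
  rw [mulEnd_app, mulEnd_app, Scheme.Modules.Hom.app_smul]

lemma mulEnd_one (M : X.Modules) : mulEnd 1 M = 𝟙 M := by
  ext U x
  rw [mulEnd_app, map_one, one_smul]
  rfl

lemma mulEnd_mul (r s : Γ(X, ⊤)) (M : X.Modules) :
    mulEnd (r * s) M = mulEnd s M ≫ mulEnd r M := by
  ext U x
  rw [mulEnd_app, map_mul, mul_smul, Scheme.Modules.Hom.comp_app]
  change _ = (mulEnd r M).app U ((mulEnd s M).app U x)
  rw [mulEnd_app, mulEnd_app]

lemma mulEnd_zero (M : X.Modules) : mulEnd 0 M = 0 := by
  ext U x
  rw [mulEnd_app, map_zero, zero_smul]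
  rfl

lemma mulEnd_add (r s : Γ(X, ⊤)) (M : X.Modules) : mulEnd (r + s) M = mulEnd r M + mulEnd s M := by
  ext U x
  rw [mulEnd_app, map_add, add_smul]
  change _ = (mulEnd r M).app U x + (mulEnd s M).app U x
  rw [mulEnd_app, mulEnd_app]

/-- a global function as an element of the centre of the category of sheaves of modules -/
noncomputable def toCenter (X : Scheme.{u}) : Γ(X, ⊤) →+* CatCenter X.Modules where
  toFun r := { app := fun M => mulEnd r M
               naturality := fun _ _ φ => mulEnd_comm r φ }
  map_one' := NatTrans.ext (funext fun M => mulEnd_one M)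
  map_mul' r s := NatTrans.ext (funext fun M => mulEnd_mul r s M)
  map_zero' := NatTrans.ext (funext fun M => mulEnd_zero M)
  map_add' r s := NatTrans.ext (funext fun M => mulEnd_add r s M)

end Smul

section Linear

variable (k : Type u) [Field k] (X : Scheme.{u}) [X.Over (Spec (.of k))]

/-- the structure map `k → Γ(X, ⊤)` of a scheme over `k` -/
noncomputable def coefTop : k →+* Γ(X, ⊤) :=
  ((Scheme.ΓSpecIso (.of k)).inv ≫ (X ↘ Spec (.of k)).appTop).hom

/-- The category of sheaves of modules on a scheme over `k` is `k`-linear: a scalar acts by the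
multiplication with its image in `Γ(X, U)`. -/
noncomputable instance : Linear k X.Modules :=
  Linear.ofRingMorphism ((toCenter X).comp (coefTop k X))

variable {k X}

lemma smul_app (c : k) {M N : X.Modules} (φ : M ⟶ N) (U : X.Opens) (x : Γ(M, U)) :
    (c • φ).app U x = resTop U (coefTop k X c) • φ.app U x := by
  change ((mulEnd (coefTop k X c) M) ≫ φ).app U x = _
  rw [Scheme.Modules.Hom.comp_app]
  change φ.app U ((mulEnd (coefTop k X c) M).app U x) = _
  rw [mulEnd_app, Scheme.Modules.Hom.app_smul]

end Linear

end BS
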