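import Pool.Agent.Lib.MP_bd3808_ag.Mg.G024
import Pool.Agent.Lib.MP_bd3808_ag.Mg.G023

/-!
# Quasi-coherent sheaves form an abelian subcategory
-/

set_option autoImplicit false

open CategoryTheory CategoryTheory.Limits AlgebraicGeometry TopologicalSpace

namespace BS

universe u

variable (X : Scheme.{u})

/-! PROOFS. Every point of a scheme has an affine open neighbourhood (`X.isBasis_affineOpens` or
`exists_isAffineOpen_mem_and_subset`), so by `loc_of_qcoh` and `qcoh_of_loc`: `isQCoh X M` iff `Loc M U` for all affine `U`.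
Isomorphisms: `loc_iso`. Zero: `loc_zero`. Kernels: if `k` is a limit kernel fork of `f : M ⟶ N` then
`k.pt ≅ kernel f`; `loc_ker`. Cokernels: `k.pt ≅ cokernel f`; `qcoh_cok`. Finite products
(`ObjectProperty.IsClosedUnderFiniteProducts.of_isClosedUnderLimitsOfShape` or the structure, see
Mathlib/CategoryTheory/ObjectProperty/FiniteProducts.lean): a limit cone of a functor `F : Discrete J ⥤ X.Modules`
has cone point isomorphic to `∏ᶜ fun j => F.obj ⟨j⟩`; `loc_prod`. -/

private theorem QClos_of_loc {M : X.Modules} (h : ∀ U : X.Opens, IsAffineOpen U → Loc M U) :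
    isQCoh X M := by
  refine qcoh_of_loc M fun x => ?_
  obtain ⟨U, hU, hx, -⟩ := exists_isAffineOpen_mem_and_subset (X := X) (x := x) (U := ⊤) trivial
  exact ⟨U, hx, hU, h U hU⟩

private theorem QClos_iso {M N : X.Modules} (e : M ≅ N) (h : isQCoh X M) : isQCoh X N :=
  QClos_of_loc X fun _ hU => loc_iso e (loc_of_qcoh M h hU)

instance : (isQCoh X).IsClosedUnderIsomorphisms := by
  constructor
  intro M N e h
  exact QClos_iso X e h

instance : (isQCoh X).ContainsZero := by
  constructor
  obtain ⟨Z, hZ⟩ := HasZeroObject.zero (C := X.Modules)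
  exact ⟨Z, hZ, QClos_of_loc X fun U _ => loc_zero hZ U⟩

instance : (isQCoh X).IsClosedUnderKernels := by
  constructor
  rintro _ ⟨f, k, hk, hf⟩
  refine QClos_iso X (hk.conePointUniqueUpToIso (kernelIsKernel f)).symm ?_
  exact QClos_of_loc X fun U hU => loc_ker f (loc_of_qcoh _ hf.1 hU) (loc_of_qcoh _ hf.2 hU)

instance : (isQCoh X).IsClosedUnderCokernels := by
  constructor
  rintro _ ⟨f, k, hk, hf⟩
  refine QClos_iso X (hk.coconePointUniqueUpToIso (cokernelIsCokernel f)).symm ?_
  exact qcoh_cok f hf.1 hf.2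

instance : (isQCoh X).IsClosedUnderFiniteProducts := by
  constructor
  intro J _
  constructor
  rintro M ⟨h⟩
  have e : M ≅ ∏ᶜ fun j => h.diag.obj ⟨j⟩ :=
    IsLimit.conePointsIsoOfNatIso h.isLimit
      (limit.isLimit (Discrete.functor fun j => h.diag.obj ⟨j⟩)) Discrete.natIsoFunctor
  refine QClos_iso X e.symm ?_
  exact QClos_of_loc X fun U hU => loc_prod _ fun j => loc_of_qcoh _ (h.prop_diag_obj ⟨j⟩) hU

/-- the category of quasi-coherent sheaves is abelian -/
noncomputable instance : Abelian (QCoh X) := inferInstance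

end BS
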