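import Pool.Agent.Lib.MP_bd3808_ag.BS.Lin

/-!
# Fano varieties
-/

set_option autoImplicit false

open CategoryTheory CategoryTheory.Limits AlgebraicGeometry TopologicalSpace

namespace BS

universe u

variable (k : Type u) [Field k] (X : Scheme.{u}) [X.Over (Spec (.of k))]

/-- replace the entry at the place `(i,j)` of a matrix by `x` -/
def upd {m n : ℕ} {B : Type*} (a : Fin m → Fin n → B) (i : Fin m) (j : Fin n) (x : B) :
    Fin m → Fin n → B :=
  Function.update a i (Function.update (a i) j x)

/-- A global section of `(ω_X^∨)^{⊗ m}`, where `ω_X = ⋀ⁿ Ω_{X/k}` and `X` is smooth over `k` of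
dimension `n`: since `Hom(⋀ⁿ Ω, 𝒪)` is the sheaf of alternating `n`-derivations of `𝒪_X` over `k`,
this is a family, compatible with restrictions, of maps `D U` which send `m` families of `n` functions
on `U` to a function on `U`, such that `D U` is a `k`-derivation in each of the `m n` functions and
alternating in each of the `m` families. -/
structure PluriAnticanonical (n m : ℕ) where
  /-- the multiderivation on the functions on `U` -/
  D : ∀ U : X.Opens, (Fin m → Fin n → Γ(X, U)) → Γ(X, U)
  add : ∀ (U : X.Opens) (a : Fin m → Fin n → Γ(X, U)) (i : Fin m) (j : Fin n) (x y : Γ(X, U)),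
    D U (upd a i j (x + y)) = D U (upd a i j x) + D U (upd a i j y)
  leibniz : ∀ (U : X.Opens) (a : Fin m → Fin n → Γ(X, U)) (i : Fin m) (j : Fin n) (x y : Γ(X, U)),
    D U (upd a i j (x * y)) = x * D U (upd a i j y) + y * D U (upd a i j x)
  const : ∀ (U : X.Opens) (a : Fin m → Fin n → Γ(X, U)) (i : Fin m) (j : Fin n) (c : k),
    D U (upd a i j (resTop U (coefTop k X c))) = 0
  alt : ∀ (U : X.Opens) (a : Fin m → Fin n → Γ(X, U)) (i : Fin m) (j j' : Fin n), j ≠ j' →
    a i j = a i j' → D U a = 0
  res : ∀ (U V : X.Opens) (h : V ≤ U) (a : Fin m → Fin n → Γ(X, U)),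
    (X.presheaf.map (homOfLE h).op).hom (D U a) =
      D V (fun i j => (X.presheaf.map (homOfLE h).op).hom (a i j))

variable {k X} in
/-- The non-vanishing locus `X_s` of a section `s` of `(ω_X^∨)^{⊗ m}`: the set of points near which
some value `D U a` is invertible. -/
def PluriAnticanonical.locus {n m : ℕ} (s : PluriAnticanonical k X n m) : X.Opens :=
  ⨆ (U : X.Opens) (a : Fin m → Fin n → Γ(X, U)), X.basicOpen (s.D U a)

/-- The anticanonical class of `X` (smooth of dimension `n`) is ample: every point `x` lies in an affine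
open set of the form `X_s` where `s` is a global section of `(ω_X^∨)^{⊗ m}` with `m ≥ 1`. -/
def AnticanonicalAmple (n : ℕ) : Prop :=
  ∀ x : X, ∃ (m : ℕ) (_ : 1 ≤ m) (s : PluriAnticanonical k X n m), x ∈ s.locus ∧ IsAffineOpen s.locus

/-- `X` is a Fano variety of dimension `n` over `k`. -/
structure IsFano (n : ℕ) : Prop where
  smooth : SmoothOfRelativeDimension n (X ↘ Spec (.of k))
  proper : IsProper (X ↘ Spec (.of k))
  integral : GeometricallyIntegral (X ↘ Spec (.of k))
  ample : AnticanonicalAmple k X n

end BS
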