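import Pool.Agent.Lib.MP_bd3808_ag.BS.QClos

/-!
# Coherent sheaves on a locally Noetherian scheme form an abelian subcategory
-/

set_option autoImplicit false

open CategoryTheory CategoryTheory.Limits AlgebraicGeometry TopologicalSpace

namespace BS

universe u

variable (X : Scheme.{u})

/-- the linear map on sections given by a morphism -/
private noncomputable def CClos_lin {X : Scheme.{u}} {M N : X.Modules} (φ : M ⟶ N) (U : X.Opens) :
    Γ(M, U) →ₗ[Γ(X, U)] Γ(N, U) where
  toFun := ap φ U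
  map_add' := map_add (ap φ U)
  map_smul' r x := ap_smul φ U r x

private lemma CClos_surj {X : Scheme.{u}} {M N : X.Modules} (φ : M ⟶ N) (U : X.Opens)
    (h : Function.Surjective (ap φ U)) (hM : Module.Finite Γ(X, U) Γ(M, U)) :
    Module.Finite Γ(X, U) Γ(N, U) :=
  Module.Finite.of_surjective (CClos_lin φ U) h

private lemma CClos_inj {X : Scheme.{u}} {M N : X.Modules} (φ : M ⟶ N) (U : X.Opens)
    [IsNoetherianRing Γ(X, U)]
    (h : Function.Injective (ap φ U)) (hN : Module.Finite Γ(X, U) Γ(N, U)) :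
    Module.Finite Γ(X, U) Γ(M, U) := by
  have : IsNoetherian Γ(X, U) Γ(N, U) := isNoetherian_of_isNoetherianRing_of_finite _ _
  exact Module.Finite.of_injective (CClos_lin φ U) h

instance : (isCoh X).IsClosedUnderIsomorphisms := by
  constructor
  intro M N e h
  refine ⟨(isQCoh X).prop_of_iso e h.1, fun U hU => CClos_surj e.hom U ?_ (h.2 U hU)⟩
  intro x
  refine ⟨ap e.inv U x, ?_⟩
  rw [← ap_comp, e.inv_hom_id, ap_id]

variable [IsLocallyNoetherian X]

/-! PROOFS. As in QClos.lean. `Γ(X,U)` is Noetherian for affine `U` (`IsLocallyNoetherian.component_noetherian`).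
Kernels: `Γ(kernel f, U)` embeds `Γ(X,U)`-linearly (`ker_inj`, `ap_smul`) in the finite module `Γ(M,U)`
(`Module.Finite.of_injective`). Cokernels: `Γ(cokernel f, U)` is a quotient of `Γ(N,U)` (`cok_surj`;
`Module.Finite.of_surjective`). Products: `Γ(∏ F, U)` embeds in the finite product of the `Γ(F j, U)` (`prod_inj`). -/

private lemma CClos_noeth (U : X.Opens) (hU : IsAffineOpen U) : IsNoetherianRing Γ(X, U) :=
  IsLocallyNoetherian.component_noetherian ⟨U, hU⟩

instance : (isCoh X).ContainsZero := by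
  constructor
  obtain ⟨Z, hZ, hq⟩ := (isQCoh X).exists_prop_of_containsZero
  refine ⟨Z, hZ, hq, fun U _ => ?_⟩
  have h0 : ∀ x : Γ(Z, U), x = 0 := by
    intro x
    have h1 : 𝟙 Z = 0 := hZ.eq_of_src _ _
    rw [← ap_id Z U x, h1, ap_zero]
  have : Subsingleton Γ(Z, U) := ⟨fun x y => by rw [h0 x, h0 y]⟩
  infer_instance

instance : (isCoh X).IsClosedUnderKernels := by
  constructor
  rintro _ ⟨f, k, hk, hf⟩
  have e : kernel f ≅ k.pt := (kernelIsKernel f).conePointUniqueUpToIso hk
  refine (isCoh X).prop_of_iso e ⟨(isQCoh X).prop_kernel f hf.1.1 hf.2.1, fun U hU => ?_⟩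
  have := CClos_noeth X U hU
  exact CClos_inj (kernel.ι f) U (ker_inj f U) (hf.1.2 U hU)

instance : (isCoh X).IsClosedUnderCokernels := by
  constructor
  rintro _ ⟨f, k, hk, hf⟩
  have e : cokernel f ≅ k.pt := (cokernelIsCokernel f).coconePointUniqueUpToIso hk
  refine (isCoh X).prop_of_iso e ⟨(isQCoh X).prop_cokernel f hf.1.1 hf.2.1, fun U hU => ?_⟩
  exact CClos_surj (cokernel.π f) U (cok_surj f hf.1.1 hf.2.1 hU) (hf.2.2 U hU)

instance : (isCoh X).IsClosedUnderFiniteProducts := by
  constructor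
  intro J _
  constructor
  rintro M ⟨p⟩
  have e : (∏ᶜ fun j => p.diag.obj ⟨j⟩) ≅ M :=
    (limit.isLimit (Discrete.functor fun j => p.diag.obj ⟨j⟩)).conePointsIsoOfNatIso p.isLimit
      (Discrete.natIsoFunctor (F := p.diag)).symm
  refine (isCoh X).prop_of_iso e ⟨(isQCoh X).prop_product fun j => (p.prop_diag_obj ⟨j⟩).1,
    fun U hU => ?_⟩
  have := CClos_noeth X U hU
  have hf : ∀ j, Module.Finite Γ(X, U) Γ(p.diag.obj ⟨j⟩, U) := fun j => (p.prop_diag_obj ⟨j⟩).2 U hU
  have : IsNoetherian Γ(X, U) (∀ j, Γ(p.diag.obj ⟨j⟩, U)) :=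
    isNoetherian_of_isNoetherianRing_of_finite _ _
  exact Module.Finite.of_injective
    (LinearMap.pi fun j => CClos_lin (Pi.π (fun j => p.diag.obj ⟨j⟩) j) U)
    (fun x y h => prod_inj _ U x y fun j => congrFun h j)

/-- the category of coherent sheaves is abelian -/
noncomputable instance : Abelian (Coh X) := inferInstance

end BS
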