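import Mathlib

/-!
# Coherent sheaves on a scheme
-/

set_option autoImplicit false

open CategoryTheory CategoryTheory.Limits AlgebraicGeometry TopologicalSpace

namespace BS

universe u

/-- quasi-coherent sheaves of modules (Mathlib's definition) -/
def isQCoh (X : Scheme.{u}) : ObjectProperty X.Modules :=
  fun M => SheafOfModules.IsQuasicoherent.{u} (R := X.ringCatSheaf) M

/-- A sheaf of modules is coherent (on a locally Noetherian scheme) if it is quasi-coherent and its
sections over every affine open set form a finitely generated module. -/
def isCoh (X : Scheme.{u}) : ObjectProperty X.Modules :=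
  fun M => isQCoh X M ∧ ∀ U : X.Opens, IsAffineOpen U → Module.Finite Γ(X, U) Γ(M, U)

/-- the category of quasi-coherent sheaves -/
abbrev QCoh (X : Scheme.{u}) := (isQCoh X).FullSubcategory

/-- the category of coherent sheaves -/
abbrev Coh (X : Scheme.{u}) := (isCoh X).FullSubcategory


end BS
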