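import Pool.Agent.Lib.MP_bd3808_ag.Mg.G025
import Pool.Agent.Lib.MP_bd3808_ag.Mg.G012

/-!
# The equivalence between the coherent sheaves on `X` and the model
-/

set_option autoImplicit false

open CategoryTheory CategoryTheory.Limits AlgebraicGeometry TopologicalSpace

namespace BS

universe u

variable {k : Type u} [Field k] {X : Scheme.{u}} [X.Over (Spec (.of k))]

namespace Charts

variable (C : Charts k X)

/-- the charts satisfy `Loc` for a coherent sheaf -/
lemma loc_coh {F : X.Modules} (hF : isCoh X F) (σ : Finset MPbd3808.BR.Vr) (hσ : MPbd3808.BR.Full σ) :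
    Loc F (C.U σ hσ) := loc_of_qcoh F hF.1 (C.affine σ hσ)

/-- the functor from coherent sheaves on `X` to the model -/
noncomputable def PhiC : Coh X ⥤ MPbd3808.BR.CohW k :=
  ObjectProperty.lift _ ((isCoh X).ι ⋙ C.Phi) fun F =>
    ⟨C.phi_isQC F.obj (C.loc_coh F.property), C.phi_isFG F.obj
      fun σ hσ => F.property.2 _ (C.affine σ hσ)⟩

instance : C.PhiC.Faithful where
  map_injective {F G φ ψ} h := by
    apply ObjectProperty.hom_ext
    exact C.phi_faithful (C.loc_coh F.property) (congrArg (fun e => e.hom) h)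

instance : C.PhiC.Full where
  map_surjective {F G} η := by
    obtain ⟨φ, hφ⟩ := C.phi_full (C.loc_coh F.property) (C.loc_coh G.property) η.hom
    exact ⟨ObjectProperty.homMk φ, ObjectProperty.hom_ext _ hφ⟩

instance : C.PhiC.EssSurj where
  mem_essImage N := by
    obtain ⟨F, hF, ⟨e⟩⟩ := phi_essSurj C N.obj N.property.1
    have h : MPbd3808.BR.isFG k (C.phiObj F) := by
      intro σ hσ
      obtain ⟨n, d, g, hg⟩ := N.property.2 σ hσ
      refine ⟨n, d, fun i => (e.inv.app _).hom (g i), fun a x => ?_⟩
      have h1 := hg a ((e.hom.app _).hom x)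
      have h2 := Submodule.mem_map_of_mem (f := (e.inv.app (MPbd3808.BR.Ob.mk σ hσ a)).hom) h1
      rw [Submodule.map_span] at h2
      have h3 : (e.inv.app (MPbd3808.BR.Ob.mk σ hσ a)).hom ((e.hom.app _).hom x) = x := by
        rw [← ModuleCat.comp_apply, ← NatTrans.comp_app, e.hom_inv_id]
        rfl
      rw [h3] at h2
      refine Submodule.span_mono ?_ h2
      rintro _ ⟨_, ⟨i, m, rfl⟩, rfl⟩
      refine ⟨i, m, ?_⟩
      exact congr($(e.inv.naturality m).hom (g i))
    exact ⟨⟨F, C.coh_of_isFG F hF h⟩, ⟨ObjectProperty.isoMk _ e⟩⟩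

instance : C.PhiC.IsEquivalence where

instance : C.PhiC.Additive where
  map_add := rfl

instance : C.PhiC.Linear k where
  map_smul φ c := by
    apply ObjectProperty.hom_ext
    exact C.Phi.map_smul c φ.hom

end Charts

end BS
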