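import Pool.Agent.Lib.MP_bd3808_ag.Mg.G027
import Pool.Agent.Lib.MP_bd3808_ag.Mg.G026

/-!
# A proper scheme with charts is a Fano variety
-/

set_option autoImplicit false

open CategoryTheory CategoryTheory.Limits AlgebraicGeometry TopologicalSpace

namespace BS

open MPbd3808.BR

universe u

variable {k : Type u} [Field k] {X : Scheme.{u}} [X.Over (Spec (.of k))]

theorem Charts.isFano (C : Charts k X) (hp : IsProper (X ↘ Spec (.of k))) : IsFano k X 5 where
  smooth := smooth_of_good k X C.exists_goodOpen
  proper := hp
  integral := by
    have := C.isIntegral
    exact geomIntegral_of_good k X C.exists_goodOpen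
  ample := C.ample

end BS
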