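import Pool.Agent.Lib.MP_bd3808_ag.Mg.G021
import Pool.Agent.Lib.MP_bd3808_ag.Mg.G023

/-!
# The charts of `W`
-/

set_option autoImplicit false

open CategoryTheory CategoryTheory.Limits AlgebraicGeometry TopologicalSpace HomogeneousLocalization

namespace BS

open MPbd3808.BR

universe u

section
variable {σ : Type*} {A : Type u} [CommRing A] [SetLike σ A] [AddSubgroupClass σ A]
  (𝒜 : ℕ → σ) [GradedRing 𝒜]

private theorem WCh_zero (f : A) {m : ℕ} (hf : f ∈ 𝒜 m) (hm : 0 < m) :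
    (Scheme.ΓSpecIso (.of (𝒜 0))).inv ≫ (Proj.toSpecZero 𝒜).appTop ≫
      (Proj 𝒜).presheaf.map (homOfLE (le_top (a := Proj.basicOpen 𝒜 f))).op =
    CommRingCat.ofHom (fromZeroRingHom 𝒜 _) ≫ Proj.awayToSection 𝒜 f := by
  have h1 : (Proj.basicOpen 𝒜 f).ι ≫ Proj.toSpecZero 𝒜 = Proj.basicOpenToSpec 𝒜 f ≫
        Spec.map (CommRingCat.ofHom (fromZeroRingHom 𝒜 _)) := by
    rw [← Proj.basicOpenIsoSpec_hom 𝒜 f hf hm, ← Iso.inv_comp_eq,
      ← Proj.awayι_toSpecZero 𝒜 f hf hm, Proj.awayι, Category.assoc]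
  have h2 := congrArg (fun φ => φ.appTop) h1
  simp only [Scheme.Hom.comp_appTop] at h2
  have h3 : (Proj.basicOpenToSpec 𝒜 f).appTop = (Scheme.ΓSpecIso _).hom ≫ Proj.awayToSection 𝒜 f ≫
      (Proj.basicOpen 𝒜 f).topIso.inv := Proj.basicOpenToSpec_app_top 𝒜 f
  rw [h3, ← Category.assoc, Scheme.ΓSpecIso_naturality] at h2
  have h4 : (Proj 𝒜).presheaf.map (homOfLE (le_top (a := Proj.basicOpen 𝒜 f))).op =
      (Proj.basicOpen 𝒜 f).ι.appTop ≫ (Proj.basicOpen 𝒜 f).topIso.hom := by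
    rw [Scheme.Opens.ι_appTop, Scheme.Opens.topIso_hom]
    exact (Proj 𝒜).presheaf.map_comp _ _
  rw [h4, ← Category.assoc (Proj.toSpecZero 𝒜).appTop, h2]
  simp only [Category.assoc, Iso.inv_hom_id, Category.comp_id, Iso.inv_hom_id_assoc]
end

section
variable {k A : Type u} [Field k] [CommRing A] [Algebra k A] (𝒜 : ℕ → Submodule k A)
  [GradedAlgebra 𝒜]

private theorem WCh_gen (f : A) {m : ℕ} (hf : f ∈ 𝒜 m) (hm : 0 < m) (c : k) :
    ((Proj 𝒜).presheaf.map (homOfLE (le_top (a := Proj.basicOpen 𝒜 f))).op).hom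
      (((Scheme.ΓSpecIso (.of k)).inv ≫ (Proj.toSpecZero 𝒜 ≫
        Spec.map (CommRingCat.ofHom (algebraMap k (𝒜 0)))).appTop).hom c) =
    (Proj.awayToSection 𝒜 f).hom
      (fromZeroRingHom 𝒜 (Submonoid.powers f) (algebraMap k (𝒜 0) c)) := by
  have h1 := WCh_zero 𝒜 f hf hm
  have h2 : (Scheme.ΓSpecIso (.of k)).inv ≫ (Proj.toSpecZero 𝒜 ≫
        Spec.map (CommRingCat.ofHom (algebraMap k (𝒜 0)))).appTop =
      CommRingCat.ofHom (algebraMap k (𝒜 0)) ≫ (Scheme.ΓSpecIso (.of (𝒜 0))).inv ≫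
      (Proj.toSpecZero 𝒜).appTop := by
    rw [Scheme.Hom.comp_appTop, ← Category.assoc, ← Category.assoc,
      ← Scheme.ΓSpecIso_inv_naturality]
  rw [h2]
  exact congrArg (fun φ => (CommRingCat.ofHom (algebraMap k (𝒜 0)) ≫ φ).hom c) h1

private theorem WCh_fz (f : A) (c : k) :
    algebraMap (Away 𝒜 f) (Localization.Away f)
      (fromZeroRingHom 𝒜 (Submonoid.powers f) (algebraMap k (𝒜 0) c)) =
    algebraMap A (Localization.Away f) (algebraMap k A c) := by
  rfl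
end

variable (k : Type u) [Field k]

private theorem WCh_psi (m : AA k) (hm : IsUnit (ev1 k m)) (c : k) :
    psi k m hm (fromZeroRingHom (AG k) (Submonoid.powers m) (algebraMap k (AG k 0) c)) =
      algebraMap k (RL k) c := by
  rw [psi, RingHom.comp_apply, WCh_fz, IsLocalization.Away.lift_eq]
  simp [ev1]

private theorem WCh_res (m : AA k) {d : ℕ} (hd : m ∈ AG k d) (h0 : 0 < d)
    (c : k) :
    resTop (X := W k) (DP k m) (coefTop k (W k) c) = (Proj.awayToSection (AG k) m).hom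
      (fromZeroRingHom (AG k) (Submonoid.powers m) (algebraMap k (AG k 0) c)) := by
  have h := WCh_gen (k := k) (A := AA k) (AG k) m hd h0 c
  exact h

private theorem WCh_sc (m : AA k) {d : ℕ} (hd : m ∈ AG k d) (h0 : 0 < d)
    (hm : IsUnit (ev1 k m)) (c : k) :
    sc k m hd h0 hm (resTop (X := W k) (DP k m) (coefTop k (W k) c)) = algebraMap k (RL k) c := by
  have h1 := WCh_res k m hd h0 c
  have h2 := sc_away k m hd h0 hm
    (fromZeroRingHom (AG k) (Submonoid.powers m) (algebraMap k (AG k 0) c))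
  have h3 := WCh_psi k m hm c
  exact (congrArg (sc k m hd h0 hm) h1).trans (h2.trans h3)


/-- the functions on the chart `U σ` as elements of `RL` -/
noncomputable def secW (σ : Finset Vr) (hσ : Full σ) : Γ(W k, UW k σ hσ) →+* RL k :=
  sc k (tm k 4 (mex σ) (mex_reg σ) (mex_deg hσ)) (tm_mem k _ _ _ _) (by norm_num)
    (isUnit_ev1_tm k _ _ _ _)

theorem secW_inj (σ : Finset Vr) (hσ : Full σ) : Function.Injective (secW k σ hσ) :=
  sc_inj k _ _ _ _

private theorem WCh_away (σ : Finset Vr) (hσ : Full σ)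
    (a : Away (AG k) (tm k 4 (mex σ) (mex_reg σ) (mex_deg hσ))) :
    secW k σ hσ ((Proj.awayToSection (AG k) (tm k 4 (mex σ) (mex_reg σ) (mex_deg hσ))).hom a) =
      psi k (tm k 4 (mex σ) (mex_reg σ) (mex_deg hσ))
        (isUnit_ev1_tm k 4 (mex σ) (mex_reg σ) (mex_deg hσ)) a :=
  sc_away k (tm k 4 (mex σ) (mex_reg σ) (mex_deg hσ)) (tm_mem k _ _ _ _) (by norm_num)
    (isUnit_ev1_tm k _ _ _ _) a

/-- PROOF. `psi_range` (`mex_pos`), `sc_away`, and every function is `awayToSection a`. -/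
theorem secW_range (σ : Finset Vr) (hσ : Full σ) (r : RL k) :
    (∃ y, secW k σ hσ y = r) ↔ ∃ p ∈ L0 k σ, pi k p = r := by
  rw [← psi_range k 4 (mex σ) (mex_reg σ) (mex_deg hσ) σ (fun v => mex_pos v) r]
  constructor
  · rintro ⟨y, hy⟩
    exact ⟨_, hy⟩
  · rintro ⟨a, ha⟩
    exact ⟨(Proj.awayToSection (AG k) (tm k 4 (mex σ) (mex_reg σ) (mex_deg hσ))).hom a,
      (WCh_away k σ hσ a).trans ha⟩

/-- PROOF. Let `m := tm (mex σ)`, `m' := tm (mex τ)`, `x := m m' = tm (mex σ + mex τ)`. `D_+(x) = U τ` (`UW_eq`, as `σ ⊆ τ`). `sc_mul` for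
`x = m m'` gives `sc x (y|D_+(x)) = sc m y`, and for `x = m' m`: `sc x (y'|D_+(x)) = sc m' y'` for `y' := y|U τ`. -/
theorem secW_res (σ τ : Finset Vr) (hσ : Full σ) (hτ : Full τ) (h : σ ⊆ τ) (hU : UW k τ hτ ≤ UW k σ hσ)
    (y : Γ(W k, UW k σ hσ)) : secW k τ hτ (rO (W k) hU y) = secW k σ hσ y := by
  have hxd : tm k 4 (mex σ) (mex_reg σ) (mex_deg hσ) * tm k 4 (mex τ) (mex_reg τ) (mex_deg hτ) ∈
      AG k (4 + 4) := SetLike.mul_mem_graded (tm_mem k _ _ _ _) (tm_mem k _ _ _ _)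
  have hxu : IsUnit (ev1 k (tm k 4 (mex σ) (mex_reg σ) (mex_deg hσ) *
      tm k 4 (mex τ) (mex_reg τ) (mex_deg hτ))) := by
    rw [map_mul]
    exact (isUnit_ev1_tm k _ _ _ _).mul (isUnit_ev1_tm k _ _ _ _)
  have h1 : DP k (tm k 4 (mex σ) (mex_reg σ) (mex_deg hσ) *
      tm k 4 (mex τ) (mex_reg τ) (mex_deg hτ)) ≤ DP k (tm k 4 (mex σ) (mex_reg σ) (mex_deg hσ)) :=
    Proj.basicOpen_mono _ _ _ (Dvd.intro (tm k 4 (mex τ) (mex_reg τ) (mex_deg hτ)) rfl)
  have h2 : DP k (tm k 4 (mex σ) (mex_reg σ) (mex_deg hσ) *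
      tm k 4 (mex τ) (mex_reg τ) (mex_deg hτ)) ≤ DP k (tm k 4 (mex τ) (mex_reg τ) (mex_deg hτ)) :=
    Proj.basicOpen_mono _ _ _ (Dvd.intro_left (tm k 4 (mex σ) (mex_reg σ) (mex_deg hσ)) rfl)
  have e1 := sc_mul k (tm k 4 (mex σ) (mex_reg σ) (mex_deg hσ))
    (tm k 4 (mex τ) (mex_reg τ) (mex_deg hτ)) _ rfl (tm_mem k _ _ _ _) (by norm_num)
    (tm_mem k _ _ _ _) hxd (isUnit_ev1_tm k _ _ _ _) hxu h1 y
  have e2 := sc_mul k (tm k 4 (mex τ) (mex_reg τ) (mex_deg hτ))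
    (tm k 4 (mex σ) (mex_reg σ) (mex_deg hσ))
    (tm k 4 (mex σ) (mex_reg σ) (mex_deg hσ) * tm k 4 (mex τ) (mex_reg τ) (mex_deg hτ))
    (mul_comm (tm k 4 (mex σ) (mex_reg σ) (mex_deg hσ)) (tm k 4 (mex τ) (mex_reg τ) (mex_deg hτ))) (tm_mem k _ _ _ _) (by norm_num)
    (tm_mem k _ _ _ _) hxd (isUnit_ev1_tm k _ _ _ _) hxu h2 (rO (W k) hU y)
  have e3 := rO_rO (X := W k) hU h2 y
  exact (e2.symm.trans (congrArg _ e3)).trans e1

/-- PROOF. The function `resTop (coefTop c)` on `D_+(m)` is `awayToSection (fromZeroRingHom c)`: unfold `strW`, `coefTop`; `Proj.awayι_toSpecZero` or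
the definition of `toSpecZero` (`Proj.toSpecZero`, `basicOpenToSpec_app_top`): the composite of `(W ↘ Spec k).appTop` with the restriction to
`D_+(m)` is `awayToSection m ∘ fromZeroRingHom ∘ algebraMap k (AG 0)`. (E.g. pull back along the monomorphism `Proj.awayι`, whose composite with
`toSpecZero` is `Spec.map (fromZeroRingHom)`.) Then `psi (fromZeroRingHom c) = ev1 c = algebraMap c`. -/
theorem secW_coef (σ : Finset Vr) (hσ : Full σ) (c : k) :
    secW k σ hσ (resTop (UW k σ hσ) (coefTop k (W k) c)) = algebraMap k (RL k) c := by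
  have h := WCh_sc k (tm k 4 (mex σ) (mex_reg σ) (mex_deg hσ)) (tm_mem k _ _ _ _) (by norm_num)
    (isUnit_ev1_tm k _ _ _ _) c
  exact h

private theorem WCh_exists_j {σ : Finset Vr} (e : Ex) (hr : Reg σ e) :
    ∃ j : ℕ, 0 < j ∧ Reg ∅ (e + j • mex σ) := by
  refine ⟨1 + ∑ v, (e v).natAbs, by omega, ?_⟩
  intro v _
  have h0 : 0 ≤ mex σ v := mex_reg σ v (Finset.notMem_empty v)
  rw [Pi.add_apply, Pi.smul_apply, nsmul_eq_mul]
  by_cases hv : v ∈ σ
  · have h1 : 0 < mex σ v := (mex_pos v).1 hv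
    have h2 : (e v).natAbs ≤ ∑ v, (e v).natAbs :=
      Finset.single_le_sum (f := fun v => (e v).natAbs) (fun _ _ => Nat.zero_le _)
        (Finset.mem_univ v)
    have h3 : ((1 + ∑ v, (e v).natAbs : ℕ) : ℤ) ≤
        ((1 + ∑ v, (e v).natAbs : ℕ) : ℤ) * mex σ v :=
      le_mul_of_one_le_right (by positivity) h1
    omega
  · have h1 := hr v hv
    positivity

/-- PROOF. `s = awayToSection a` with `psi a = mo e`. Let `j > 0` be such that `e' := e + j mex σ ≥ 0`; then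
`a = Away.mk j (tm (4 j) e')` (`psi_inj`, `psi_mk`). By `basicOpen_sec`: `basicOpen s = D_+(m) ⊓ D_+(tm (4j) e')`, `e'` has support contained in `supp σ e`
and containing `{v | 0 < e v} \ σ`; so `D_+(m) ⊓ D_+(tm (4j) e') = D_+(tm (mex σ + e')) = U (supp σ e)` (`Proj.basicOpen_mul`, `tm_mul`,
`UW_eq`). -/
theorem secW_basic (σ : Finset Vr) (hσ : Full σ) (e : Ex) (hr : Reg σ e) (hd : degE e = 0)
    (s : Γ(W k, UW k σ hσ)) (hs : secW k σ hσ s = mo k e) :
    Scheme.basicOpen (X := W k) s = UW k (supp σ e) (hσ.mono (subset_supp σ e)) := by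
  obtain ⟨j, hj, hrj⟩ := WCh_exists_j e hr
  have hnd : degE (j • mex σ) = (j • 4) • de := by
    have h1 : ∀ n : ℕ, degE (n • mex σ) = (n • 4) • de := by
      intro n
      induction n with
      | zero => simp [degE_zero]
      | succ n ih => rw [succ_nsmul, degE_add, ih, mex_deg hσ, ← add_smul]; congr 1; simp only [smul_eq_mul]; ring
    exact h1 j
  have hdj : degE (e + j • mex σ) = (j • 4) • de := by
    rw [degE_add, hd, zero_add, hnd]
  have hm := tm_mem k 4 (mex σ) (mex_reg σ) (mex_deg hσ)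
  have hmo : ∀ n : ℕ, mo k (n • mex σ) = mo k (mex σ) ^ n := by
    intro n
    induction n with
    | zero => rw [zero_smul, mo_zero, pow_zero]
    | succ n ih => rw [succ_nsmul, mo_add, ih, pow_succ]
  have hpsi := psi_mk k (tm k 4 (mex σ) (mex_reg σ) (mex_deg hσ)) (isUnit_ev1_tm k _ _ _ _) hm j
    (tm k (j • 4) (e + j • mex σ) hrj hdj) (tm_mem k _ _ _ _)
  rw [ev1_tm, ev1_tm, mo_add, hmo] at hpsi
  have hpsi' := ((isUnit_mo k (mex σ)).pow j).mul_right_cancel hpsi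
  have hsa : s = (Proj.awayToSection (AG k) (tm k 4 (mex σ) (mex_reg σ) (mex_deg hσ))).hom (Away.mk (AG k) hm j
      (tm k (j • 4) (e + j • mex σ) hrj hdj) (tm_mem k _ _ _ _)) := by
    apply secW_inj k σ hσ
    rw [hs]
    exact hpsi'.symm.trans (WCh_away k σ hσ _).symm
  rw [hsa]
  refine (basicOpen_sec k _ hm (by norm_num) j hj _ (tm_mem k _ _ _ _)).trans ?_
  unfold DP
  have hmul := Proj.basicOpen_mul (AG k) (tm k 4 (mex σ) (mex_reg σ) (mex_deg hσ))
    (tm k (j • 4) (e + j • mex σ) hrj hdj)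
  refine hmul.symm.trans ?_
  rw [tm_mul]
  refine UW_eq k (supp σ e) _ _ (by omega) _ _ _ ?_
  intro v
  have h0 : 0 ≤ mex σ v := mex_reg σ v (Finset.notMem_empty v)
  have h1 := hrj v (Finset.notMem_empty v)
  rw [supp, Finset.mem_union, Finset.mem_filter, Pi.add_apply]
  by_cases hv : v ∈ σ
  · have h2 : 0 < mex σ v := (mex_pos v).1 hv
    simp only [hv, true_or, true_iff]
    omega
  · have h2 : mex σ v = 0 := by
      have := mt (mex_pos v).2 hv
      omega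
    simp [hv, h2]

private theorem WCh_lift {A B C : Type*} [CommRing A] [CommRing B] [CommRing C] (f : A →+* B)
    (hf : Function.Injective f) (g : C →+* B) (h : ∀ c, ∃ a, f a = g c) :
    ∃ φ : C →+* A, ∀ c, f (φ c) = g c := by
  choose φ hφ using h
  refine ⟨⟨⟨⟨φ, ?_⟩, ?_⟩, ?_, ?_⟩, hφ⟩
  · apply hf; rw [hφ, map_one, map_one]
  · intro x y; apply hf; simp only [hφ, map_mul]
  · apply hf; simp only [hφ, map_zero]
  · intro x y; apply hf; simp only [hφ, map_add]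

/-- THE CHARTS OF `W`.
PROOF. `ev σ hσ p :=` the unique function with `secW = pi p` (a ring homomorphism: e.g.
`(secW).rangeRestrict` is bijective; or construct it with `Function.Injective`); `ev_coef`: `secW_coef`; `ev_res`: `secW_res`; `ev_surj`: `secW_range`;
`ev_ker`: `pi_eq_zero_of_LD` and `pi (ff q) = 0`; `basic`: `secW_basic`. -/
theorem exists_charts : ∃ C : Charts k (W k), (∀ σ hσ, C.U σ hσ = UW k σ hσ) := by
  have h1 : ∀ (σ : Finset Vr) (hσ : Full σ), ∃ φ : L0 k σ →+* Γ(W k, UW k σ hσ),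
      ∀ p, secW k σ hσ (φ p) = pi k p := by
    intro σ hσ
    exact WCh_lift (secW k σ hσ) (secW_inj k σ hσ) ((pi k).toRingHom.comp (L0 k σ).val.toRingHom)
      fun p => (secW_range k σ hσ _).2 ⟨p, p.2, rfl⟩
  choose ev hev using h1
  refine ⟨{ U := UW k
            affine := UW_affine k
            cover := UW_cover k
            inf := UW_inf k
            ev := ev
            ev_coef := ?_
            ev_res := ?_
            ev_surj := ?_
            ev_ker := ?_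
            basic := ?_ }, fun _ _ => rfl⟩
  · intro σ hσ c
    apply secW_inj k σ hσ
    rw [hev, secW_coef]
    exact AlgHom.commutes (pi k) c
  · intro σ τ hσ hτ h hU p
    apply secW_inj k τ hτ
    rw [hev, secW_res k σ τ hσ hτ h, hev]
    rfl
  · intro σ hσ y
    obtain ⟨p, hp, hpy⟩ := (secW_range k σ hσ _).1 ⟨y, rfl⟩
    refine ⟨⟨p, hp⟩, ?_⟩
    apply secW_inj k σ hσ
    rw [hev]
    exact hpy
  · intro σ hσ p
    rw [← map_eq_zero_iff (secW k σ hσ) (secW_inj k σ hσ), hev]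
    constructor
    · intro h
      exact pi_eq_zero_of_LD k σ p p.2 h
    · rintro ⟨q, -, hq⟩
      exact (pi_eq_zero k p).2 ⟨q, hq⟩
  · intro σ hσ e hr hd
    exact secW_basic k σ hσ e hr hd _ (hev σ hσ _)

end BS
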