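import Pool.Agent.Lib.MP_bd3808_ag.Mg.G027

/-!
# `W` is proper over `k`
-/

set_option autoImplicit false

open CategoryTheory CategoryTheory.Limits AlgebraicGeometry TopologicalSpace HomogeneousLocalization

namespace BS

open MPbd3808.BR

universe u

variable (k : Type u) [Field k]

private lemma WFin_coe_algebraMap (c : k) :
    ((algebraMap k (AG k 0) c : AG k 0) : AA k) = algebraMap k (AA k) c := rfl

/-- PROOF. Injective: `k` is a field and `AG 0` is not zero (`1`, `RL` is nontrivial). Surjective: an element of `AG 0` is `hm r` with `r = pi p`,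
`p ∈ LD ∅ 0`, and all exponents of `p` are `0` (`eq_zero_of_deg`), so `p` is a constant. -/
theorem algebraMap_AG0_bijective : Function.Bijective (algebraMap k (AG k 0)) := by
  constructor
  · intro a b h
    have h1 : algebraMap k (AA k) a = algebraMap k (AA k) b := by
      rw [← WFin_coe_algebraMap, ← WFin_coe_algebraMap, h]
    have h2 : algebraMap k (Polynomial (RL k)) a = algebraMap k (Polynomial (RL k)) b :=
      congrArg Subtype.val h1
    exact FaithfulSMul.algebraMap_injective k _ h2
  · intro x
    obtain ⟨p, hp, hpe⟩ := (x : AA k).2 0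
    rw [zero_smul] at hp
    refine ⟨p.coeff 0, Subtype.ext ?_⟩
    rw [WFin_coe_algebraMap]
    have hx := eq_hm k x.2
    have hpc : p = algebraMap k (Lau k) (p.coeff 0) := by
      have : p = AddMonoidAlgebra.single 0 (p.coeff 0) := by
        ext e
        by_cases he : e = 0
        · subst he; simp
        · have h0 : p.coeff e = 0 := by
            by_contra hne
            have := hp e (Finsupp.mem_support_iff.2 hne)
            exact he (eq_zero_of_deg this.1 this.2)
          rw [h0]
          simp [Ne.symm he]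
      exact this
    rw [hx]
    apply Subtype.ext
    change Polynomial.C (algebraMap k (RL k) (p.coeff 0)) = Polynomial.monomial 0 _
    rw [Polynomial.monomial_zero_left]
    congr 1
    rw [← hpe]
    have h3 : (pi k).toLinearMap p = pi k (algebraMap k (Lau k) (p.coeff 0)) :=
      congrArg (pi k) hpc
    rw [h3, AlgHom.commutes]

private lemma WFin_tm_congr (n : ℕ) {e e' : Ex} (h : e = e') (hr : Reg ∅ e) (hd : degE e = n • de)
    (hr' : Reg ∅ e') (hd' : degE e' = n • de) : tm k n e hr hd = tm k n e' hr' hd' := by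
  subst h; rfl

private lemma WFin_tm_zero (hr : Reg ∅ 0) (hd : degE 0 = 0 • de) : tm k 0 0 hr hd = 1 := by
  apply Subtype.ext
  change Polynomial.monomial 0 (mo k 0) = 1
  rw [mo_zero]
  rfl

private lemma WFin_tm_mem (n : ℕ) : ∀ (e : Ex) (hr : Reg ∅ e) (hd : degE e = n • de),
    tm k n e hr hd ∈ Algebra.adjoin k {a | ∃ (e : Ex) (hr : Reg ∅ e) (hd : degE e = 1 • de),
      a = tm k 1 e hr hd} := by
  induction n with
  | zero =>
    intro e hr hd
    have h0 : e = 0 := eq_zero_of_deg hr (by rw [hd, zero_smul])
    subst h0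
    rw [WFin_tm_zero]
    exact one_mem _
  | succ n ih =>
    intro e hr hd
    obtain ⟨e1, e2, hr1, hr2, hd1, hd2, he⟩ := split_deg hr hd
    have hd1' : degE e1 = 1 • de := by rw [one_smul, hd1]
    have : tm k (n + 1) e hr hd = tm k n e2 hr2 hd2 * tm k 1 e1 hr1 hd1' := by
      rw [tm_mul]
      exact WFin_tm_congr k (n + 1) (by rw [he, add_comm]) _ _ _ _
    rw [this]
    exact mul_mem (ih e2 hr2 hd2) (Algebra.subset_adjoin ⟨e1, hr1, hd1', rfl⟩)

/-- PROOF. Let `S := Algebra.adjoin k {tm 1 e | e ∈ E1}` (`finite_E1`). All `tm n e` are in `S`: induction on `n`; `n = 0`: `e = 0`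
(`eq_zero_of_deg`), `tm 0 0 = 1`; `n + 1`: `split_deg`, `tm_mul`. Every element of `AA k` is a sum of homogeneous elements
`hm r`, `r = pi p` (`DirectSum.sum_support_decompose`, `eq_hm`), and `hm (pi p) = ∑ c_e tm n e` over the support of `p`. So `S = ⊤`. -/
theorem finiteType_AA : Algebra.FiniteType k (AA k) := by
  refine ⟨Subalgebra.fg_def.2 ⟨{a | ∃ (e : Ex) (hr : Reg ∅ e) (hd : degE e = 1 • de),
      a = tm k 1 e hr hd}, ?_, ?_⟩⟩
  · have hf := finite_E1.to_subtype
    let f : {e : Ex | Reg ∅ e ∧ degE e = de} → AA k :=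
      fun e => tm k 1 e.1 e.2.1 (by rw [one_smul]; exact e.2.2)
    refine (Set.finite_range f).subset ?_
    rintro a ⟨e, hr, hd, rfl⟩
    exact ⟨⟨e, hr, by rw [hd, one_smul]⟩, rfl⟩
  · set S := Algebra.adjoin k {a | ∃ (e : Ex) (hr : Reg ∅ e) (hd : degE e = 1 • de),
      a = tm k 1 e hr hd} with hS
    rw [eq_top_iff]
    intro x _
    have key : ∀ (n : ℕ) (r : RL k), r ∈ RD k n →
        Polynomial.monomial n r ∈ Subalgebra.toSubmodule (S.map (AA k).val) := by
      rintro n r ⟨p, hp, rfl⟩
      have hsum : pi k p = p.coeff.support.sum fun e => pi k (mono k e (p.coeff e)) := by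
        conv_lhs => rw [← AddMonoidAlgebra.sum_coeff_single p]
        rw [Finsupp.sum, map_sum]
      change Polynomial.monomial n (pi k p) ∈ _
      rw [hsum, map_sum]
      refine Submodule.sum_mem _ fun e he => ?_
      have h1 : pi k (mono k e (p.coeff e)) = p.coeff e • mo k e := by
        unfold mo
        rw [← map_smul]
        congr 1
        rw [mono, mono, AddMonoidAlgebra.smul_single, smul_eq_mul, mul_one]
      rw [h1, ← Polynomial.smul_monomial]
      refine Submodule.smul_mem _ _ ?_
      exact ⟨tm k n e (hp e he).1 (hp e he).2, WFin_tm_mem k n e _ _, rfl⟩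
    have hx : (x : Polynomial (RL k)) ∈ Subalgebra.toSubmodule (S.map (AA k).val) := by
      rw [Polynomial.as_sum_support (x : Polynomial (RL k))]
      exact Submodule.sum_mem _ fun n _ => key n _ (x.2 n)
    obtain ⟨y, hy, hyx⟩ := hx
    have : y = x := Subtype.ext hyx
    rw [← this]
    exact hy

private lemma WFin_isoSpec {R S : CommRingCat.{u}} (f : R ⟶ S) (hf : Function.Bijective f.hom) :
    IsIso (Spec.map f) := by
  have : IsIso f := by
    rw [ConcreteCategory.isIso_iff_bijective]
    exact hf
  infer_instance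

private lemma WFin_gen {σ A : Type u} [CommRing A] [SetLike σ A] [AddSubgroupClass σ A]
    (𝒜 : ℕ → σ) [GradedRing 𝒜] (h : Algebra.FiniteType (𝒜 0) A) :
    IsProper (Proj.toSpecZero 𝒜) := inferInstance

private lemma WFin_properComp {X Y Z : Scheme.{u}} (f : X ⟶ Y) (g : Y ⟶ Z) (hf : IsProper f)
    (hg : IsIso g) : IsProper (f ≫ g) := inferInstance

private lemma WFin_finiteType : Algebra.FiniteType (AG k 0) (AA k) := by
  obtain ⟨s, hs⟩ := (finiteType_AA k).out
  refine ⟨⟨s, eq_top_iff.2 fun b _ => ?_⟩⟩
  have hb : b ∈ Algebra.adjoin k (s : Set (AA k)) := by rw [hs]; trivial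
  induction hb using Algebra.adjoin_induction with
  | mem x hx => exact Algebra.subset_adjoin hx
  | algebraMap r =>
    exact (Algebra.adjoin (AG k 0) (s : Set (AA k))).algebraMap_mem (algebraMap k (AG k 0) r)
  | add x y _ _ hx hy => exact add_mem (hx trivial) (hy trivial)
  | mul x y _ _ hx hy => exact mul_mem (hx trivial) (hy trivial)

/-- PROOF. `Algebra.FiniteType.of_restrictScalars_finiteType k (AG k 0) (AA k)` gives `Algebra.FiniteType (AG k 0) (AA k)`, so `Proj.toSpecZero` is
proper (instance in Mathlib/AlgebraicGeometry/ProjectiveSpectrum/Proper.lean); `Spec.map` of the bijective map `k → AG 0` is an isomorphism. -/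
theorem proper_W : IsProper (W k ↘ Spec (.of k)) := by
  have := WFin_gen (AG k) (WFin_finiteType k)
  change IsProper (strW k)
  unfold strW
  refine WFin_properComp _ _ this ?_
  refine WFin_isoSpec _ ?_
  exact algebraMap_AG0_bijective k

/-- PROOF. `W` is locally of finite type over a field: `LocallyOfFiniteType.isLocallyNoetherian` or similar; or the rings `Γ(W, U)` of an affine cover are
of finite type over `k`. -/
theorem noetherian_W : IsLocallyNoetherian (W k) := by
  have := proper_W k
  exact LocallyOfFiniteType.isLocallyNoetherian (W k ↘ Spec (.of k))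

end BS
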