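import Pool.Agent.Lib.MP_bd3808_ag.BS.FanoC
import Pool.Agent.Lib.MP_bd3808_ag.BS.EquivCoh
import Pool.Agent.Lib.MP_bd3808_ag.BS.CClos
import Pool.Agent.Lib.MP_bd3808_ag.BS.WCh
import Pool.Agent.Lib.MP_bd3808_ag.BS.WFin
import Pool.Agent.Lib.MP_bd3808_ag.BO.DbB
import Pool.Agent.Lib.MP_bd3808_ag.BR.C6

/-!
# The Fano fivefold `W` and its bounded derived category of coherent sheaves
-/

set_option autoImplicit false

open CategoryTheory CategoryTheory.Limits AlgebraicGeometry TopologicalSpace

namespace BS

open MPbd3808.BR

universe u w w'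

/-- The orbits of the braid group on the full exceptional systems with `N` members of the bounded derived
category `D^b(A)` of a `k`-linear abelian category `A`, up to isomorphisms and shifts of the members. -/
def DbOrbits (k : Type w) [Field k] (A : Type*) [Category* A] [Abelian A] [Linear k A]
    [HasDerivedCategory.{w'} A] (N : ℕ) : Type _ := BO.Orbits k (BO.Db A) N

theorem isFano_W (k : Type u) [Field k] : IsFano k (W k) 5 := by
  obtain ⟨C, -⟩ := exists_charts k
  exact C.isFano (proper_W k)

instance (k : Type u) [Field k] : IsLocallyNoetherian (W k) := noetherian_W k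

/-- Infinitely many orbits in the model give infinitely many orbits in `D^b(Coh W)`. -/
theorem infinite_orbits_W (k : Type u) [Field k] [HasDerivedCategory.{w} (CohW k)]
    [HasDerivedCategory.{w'} (Coh (W k))]
    (N : ℕ) (h : Infinite (BO.Orbits k (BO.Db (CohW k)) N)) :
    Infinite (DbOrbits k (Coh (W k)) N) := by
  obtain ⟨C, -⟩ := exists_charts k
  have h3 : C.PhiC.asEquivalence.functor.Additive := inferInstanceAs C.PhiC.Additive
  have h4 : Functor.Linear k C.PhiC.asEquivalence.functor :=
    inferInstanceAs (Functor.Linear k C.PhiC)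
  have h1 : C.PhiC.asEquivalence.inverse.Additive := inferInstance
  have h2 : Functor.Linear k C.PhiC.asEquivalence.inverse := C.PhiC.asEquivalence.inverseLinear k
  exact BO.infinite_orbits_of_equivalence k C.PhiC.asEquivalence.inverse
    C.PhiC.asEquivalence.functor C.PhiC.asEquivalence.counitIso
    C.PhiC.asEquivalence.unitIso.symm N h

end BS
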