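import Pool.Agent.Lib.MP_bd3808_ag.BS.Final
import Pool.Agent.Lib.MP_bd3808_ag.Mg.G009

/-!
# Infinitely many braid group orbits on a Fano fivefold
-/

set_option autoImplicit false

open CategoryTheory CategoryTheory.Limits AlgebraicGeometry TopologicalSpace

namespace BS

open MPbd3808.BR

universe u w

theorem main (k : Type u) [Field k] (t : k) (ht0 : t ≠ 0) (ht : ∀ n : ℕ, 0 < n → t ^ n ≠ 1) :
    ∃ (X : Scheme.{u}) (_ : X.Over (Spec (.of k))) (_ : IsLocallyNoetherian X), IsFano k X 5 ∧
      ∀ [HasDerivedCategory.{w} (Coh X)], Infinite (DbOrbits k (Coh X) 24) := by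
  refine ⟨W k, inferInstance, inferInstance, isFano_W k, ?_⟩
  intro _
  letI : HasDerivedCategory.{u+1} (CohW k) := HasDerivedCategory.standard _
  refine infinite_orbits_W k 24 (infinite_orbits_CohW k (Units.mk0 t ht0) ?_)
  have key : ∀ m : ℕ, 0 < m → Units.mk0 t ht0 ^ m ≠ 1 := by
    intro m hm h
    apply ht m hm
    have := congrArg Units.val h
    simpa using this
  intro n hn
  by_contra hne
  rcases lt_or_gt_of_ne hne with h | h
  · refine key n.natAbs (Int.natAbs_pos.2 hne) ?_
    have h1 : (n.natAbs : ℤ) = -n := Int.ofNat_natAbs_of_nonpos h.le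
    rw [← zpow_natCast, h1, zpow_neg, hn, inv_one]
  · refine key n.natAbs (Int.natAbs_pos.2 hne) ?_
    have h1 : (n.natAbs : ℤ) = n := Int.natAbs_of_nonneg h.le
    rw [← zpow_natCast, h1, hn]

end BS
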